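import Pool.Agent.Helper57.BG.Stmts

/-!
# A', block P2: pairs with a common factor in the prime type II sum
-/

set_option autoImplicit false

open Finset
open Pool.Agent.Helper57.BG

namespace Pool.Agent.Helper90.AP

/-- integers of a residue class in `(A, 2A]` -/
lemma cnt {A : ℝ} (S : Finset ℕ) (hS : ∀ n ∈ S, A < n ∧ (n : ℝ) ≤ 2 * A) (hA : 0 ≤ A) (l0 : ℤ) {m : ℕ}
    (hm : 0 < m) :
    ((S.filter (fun n : ℕ => (m : ℤ) ∣ (n : ℤ) - l0)).card : ℝ) ≤ A / m + 1 := by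
  have hm' : (0 : ℝ) < m := by exact_mod_cast hm
  have hmz : (m : ℤ) ≠ 0 := by exact_mod_cast hm.ne'
  have hdiv : ∀ n ∈ S.filter (fun n : ℕ => (m : ℤ) ∣ (n : ℤ) - l0),
      (n : ℤ) - l0 = m * (((n : ℤ) - l0) / m) := fun n hn =>
    (Int.mul_ediv_cancel' (Finset.mem_filter.1 hn).2).symm
  have hsub : (S.filter (fun n : ℕ => (m : ℤ) ∣ (n : ℤ) - l0)).card ≤
      (Finset.Ioc ⌊(A - l0) / m⌋ ⌊(2 * A - l0) / m⌋).card := by
    refine Finset.card_le_card_of_injOn (fun n : ℕ => ((n : ℤ) - l0) / m) ?_ ?_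
    · intro n hn
      obtain ⟨h1, h2⟩ := hS n (Finset.mem_filter.1 hn).1
      have h3 := hdiv n hn
      obtain ⟨t, ht⟩ : ∃ t, t = ((n : ℤ) - l0) / m := ⟨_, rfl⟩
      rw [← ht] at h3
      have h4 : (n : ℝ) - l0 = m * t := by exact_mod_cast h3
      change ((n : ℤ) - l0) / m ∈ (Finset.Ioc ⌊(A - l0) / m⌋ ⌊(2 * A - l0) / m⌋ : Finset ℤ)
      rw [← ht, Finset.mem_Ioc, Int.floor_lt, Int.le_floor, div_lt_iff₀ hm', le_div_iff₀ hm']
      constructor <;> nlinarith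
    · intro a ha b hb hab
      have h1 := hdiv a ha
      have h2 := hdiv b hb
      have h3 : ((a : ℤ) - l0) / m = ((b : ℤ) - l0) / m := hab
      rw [h3, ← h2] at h1
      have h4 : (a : ℤ) = b := by linarith
      exact_mod_cast h4
  have hcard : ((Finset.Ioc ⌊(A - l0) / m⌋ ⌊(2 * A - l0) / m⌋).card : ℝ) ≤ A / m + 1 := by
    rw [Int.card_Ioc]
    obtain ⟨z, hz⟩ : ∃ z, z = ⌊(2 * A - l0) / m⌋ - ⌊(A - l0) / m⌋ := ⟨_, rfl⟩
    rw [← hz]
    rcases le_or_gt 0 z with h0 | h0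
    · have h1 : ((z.toNat : ℕ) : ℝ) = (z : ℝ) := by
        have : ((z.toNat : ℕ) : ℤ) = z := Int.toNat_of_nonneg h0
        exact_mod_cast this
      rw [h1, hz, Int.cast_sub]
      have h2 := Int.floor_le ((2 * A - l0) / (m : ℝ))
      have h3 := Int.lt_floor_add_one ((A - l0) / (m : ℝ))
      have h4 : (2 * A - l0) / (m : ℝ) = (A - l0) / m + A / m := by ring
      linarith
    · rw [Int.toNat_of_nonpos h0.le, Nat.cast_zero]
      positivity
  exact le_trans (by exact_mod_cast hsub) hcard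

lemma card_le {A : ℝ} (S : Finset ℕ) (hS : ∀ n ∈ S, A < n ∧ (n : ℝ) ≤ 2 * A) (hA : 1 ≤ A) :
    (S.card : ℝ) ≤ 2 * A := by
  have h := cnt S hS (by linarith) 0 one_pos
  rw [Finset.filter_true_of_mem fun n _ => by rw [Nat.cast_one]; exact one_dvd _] at h
  rw [Nat.cast_one, div_one] at h
  linarith

/-- the gcd of two products -/
lemma gcdQ {q w q' w' : ℕ} (hw : w.Prime) (hw' : w'.Prime) (h1 : Nat.Coprime w q')
    (h2 : Nat.Coprime w' q) :
    Nat.gcd (q * w) (q' * w') = Nat.gcd q q' * (if w' = w then w else 1) := by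
  by_cases h : w' = w
  · rw [if_pos h, h, Nat.gcd_mul_right]
  · rw [if_neg h, mul_one]
    have h3 : Nat.Coprime w (q' * w') := Nat.Coprime.mul_right h1
      ((Nat.coprime_primes hw hw').2 fun h' => h h'.symm)
    rw [Nat.Coprime.gcd_mul_right_cancel _ h3, Nat.Coprime.gcd_mul_right_cancel_right _ h2]

/-- sums over pairs -/
lemma pairQ {Q R0 B : ℝ} (hQ : 1 ≤ Q) (QQ : Finset ℕ)
    (hQQ : ∀ q ∈ QQ, (Q < q ∧ (q : ℝ) ≤ 2 * Q) ∧ (q.divisors.card : ℝ) ≤ R0) (hR0 : 0 ≤ R0) (hB : 0 ≤ B)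
    (c : ℕ → Prop) [DecidablePred c] (ψ : ℕ → ℝ)
    (hψ : ∀ q ∈ QQ, ∀ d, d ∣ q → c d → ψ d ≤ B * d) :
    ∑ q ∈ QQ, ∑ q' ∈ QQ, (if c (Nat.gcd q q') then ψ (Nat.gcd q q') else 0) ≤
      6 * R0 * Q ^ 2 * B := by
  have hQ0 : 0 < Q := by linarith
  have hone : ∀ q ∈ QQ, ∑ q' ∈ QQ, (if c (Nat.gcd q q') then ψ (Nat.gcd q q') else 0) ≤
      3 * Q * R0 * B := by
    intro q hq
    have hqpos : 0 < q := by
      have h1 := (hQQ q hq).1.1
      have h2 : (0 : ℝ) < q := by linarith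
      exact_mod_cast h2
    calc ∑ q' ∈ QQ, (if c (Nat.gcd q q') then ψ (Nat.gcd q q') else 0)
        ≤ ∑ q' ∈ QQ, ∑ d ∈ q.divisors, (if (d : ℤ) ∣ (q' : ℤ) - 0 then B * d else 0) := by
          refine Finset.sum_le_sum fun q' _ => ?_
          have hmem : Nat.gcd q q' ∈ q.divisors :=
            Nat.mem_divisors.2 ⟨Nat.gcd_dvd_left _ _, hqpos.ne'⟩
          have h1 : (if ((Nat.gcd q q' : ℕ) : ℤ) ∣ (q' : ℤ) - 0 then B * (Nat.gcd q q' : ℕ) else 0) ≤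
              ∑ d ∈ q.divisors, (if (d : ℤ) ∣ (q' : ℤ) - 0 then B * (d : ℝ) else 0) := by
            refine Finset.single_le_sum (f := fun d : ℕ => if (d : ℤ) ∣ (q' : ℤ) - 0 then B * (d : ℝ) else 0)
              (fun d _ => ?_) hmem
            change 0 ≤ if (d : ℤ) ∣ (q' : ℤ) - 0 then B * (d : ℝ) else 0
            split_ifs
            · positivity
            · exact le_rfl
          refine le_trans ?_ h1
          rw [sub_zero, if_pos (Int.natCast_dvd_natCast.2 (Nat.gcd_dvd_right q q'))]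
          split_ifs with hc
          · exact hψ q hq _ (Nat.gcd_dvd_left _ _) hc
          · positivity
      _ = ∑ d ∈ q.divisors, ((QQ.filter (fun q' : ℕ => (d : ℤ) ∣ (q' : ℤ) - 0)).card : ℝ) * (B * d) := by
          rw [Finset.sum_comm]
          refine Finset.sum_congr rfl fun d _ => ?_
          rw [← Finset.sum_filter, Finset.sum_const, nsmul_eq_mul]
      _ ≤ ∑ d ∈ q.divisors, 3 * Q * B := by
          refine Finset.sum_le_sum fun d hd => ?_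
          have hdpos : 0 < d := Nat.pos_of_mem_divisors hd
          have hd0 : (0 : ℝ) < d := by exact_mod_cast hdpos
          have hdle : (d : ℝ) ≤ 2 * Q := by
            have h1 : d ≤ q := Nat.le_of_dvd hqpos (Nat.dvd_of_mem_divisors hd)
            have h2 : (d : ℝ) ≤ q := by exact_mod_cast h1
            exact h2.trans (hQQ q hq).1.2
          have h1 := cnt QQ (fun n hn => (hQQ n hn).1) hQ0.le 0 hdpos
          calc ((QQ.filter (fun q' : ℕ => (d : ℤ) ∣ (q' : ℤ) - 0)).card : ℝ) * (B * d)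
              ≤ (Q / d + 1) * (B * d) := mul_le_mul_of_nonneg_right h1 (by positivity)
            _ = B * (Q + d) := by field_simp
            _ ≤ B * (3 * Q) := mul_le_mul_of_nonneg_left (by linarith) hB
            _ = 3 * Q * B := by ring
      _ = (q.divisors.card : ℝ) * (3 * Q * B) := by rw [Finset.sum_const, nsmul_eq_mul]
      _ ≤ R0 * (3 * Q * B) := mul_le_mul_of_nonneg_right (hQQ q hq).2 (by positivity)
      _ = 3 * Q * R0 * B := by ring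
  calc ∑ q ∈ QQ, ∑ q' ∈ QQ, (if c (Nat.gcd q q') then ψ (Nat.gcd q q') else 0)
      ≤ ∑ q ∈ QQ, 3 * Q * R0 * B := Finset.sum_le_sum hone
    _ = (QQ.card : ℝ) * (3 * Q * R0 * B) := by rw [Finset.sum_const, nsmul_eq_mul]
    _ ≤ (2 * Q) * (3 * Q * R0 * B) :=
        mul_le_mul_of_nonneg_right (card_le QQ (fun n hn => (hQQ n hn).1) hQ) (by positivity)
    _ = 6 * R0 * Q ^ 2 * B := by ring

/-- sums over the pairs of products -/
lemma pairW {QQ W : Finset ℕ} (hW : ∀ w ∈ W, w.Prime) (hWQ : ∀ w ∈ W, ∀ q ∈ QQ, Nat.Coprime w q)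
    (φ : ℕ → ℝ) (hφ : ∀ n, 0 ≤ φ n) :
    ∑ q ∈ QQ, ∑ w ∈ W, ∑ q' ∈ QQ, ∑ w' ∈ W, (if ¬ Nat.Coprime (q * w) (q' * w') then
        φ (Nat.gcd (q * w) (q' * w')) else 0) ≤
      (∑ w ∈ W, ∑ q ∈ QQ, ∑ q' ∈ QQ, φ (Nat.gcd q q' * w)) +
        (W.card : ℝ) ^ 2 * ∑ q ∈ QQ, ∑ q' ∈ QQ,
          (if Nat.gcd q q' ≠ 1 then φ (Nat.gcd q q') else 0) := by
  have h1 : ∀ q ∈ QQ, ∀ w ∈ W, ∀ q' ∈ QQ, ∑ w' ∈ W, (if ¬ Nat.Coprime (q * w) (q' * w') then
        φ (Nat.gcd (q * w) (q' * w')) else 0) ≤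
      φ (Nat.gcd q q' * w) + (W.card : ℝ) * (if Nat.gcd q q' ≠ 1 then φ (Nat.gcd q q') else 0) := by
    intro q hq w hw q' hq'
    calc ∑ w' ∈ W, (if ¬ Nat.Coprime (q * w) (q' * w') then φ (Nat.gcd (q * w) (q' * w')) else 0)
        ≤ ∑ w' ∈ W, ((if w' = w then φ (Nat.gcd q q' * w) else 0) +
            (if Nat.gcd q q' ≠ 1 then φ (Nat.gcd q q') else 0)) := by
          refine Finset.sum_le_sum fun w' hw' => ?_
          have hg := gcdQ (hW w hw) (hW w' hw') (hWQ w hw q' hq') (hWQ w' hw' q hq)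
          have hA : 0 ≤ (if Nat.gcd q q' ≠ 1 then φ (Nat.gcd q q') else 0) := by
            split_ifs
            · exact hφ _
            · exact le_rfl
          have hA' : 0 ≤ (if w' = w then φ (Nat.gcd q q' * w) else 0) := by
            split_ifs
            · exact hφ _
            · exact le_rfl
          by_cases hc : Nat.Coprime (q * w) (q' * w')
          · rw [if_neg (not_not.2 hc)]
            linarith
          · rw [if_pos hc, hg]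
            by_cases h : w' = w
            · rw [if_pos h, if_pos h]
              linarith
            · rw [if_neg h, if_neg h, mul_one, zero_add, if_pos]
              intro h1
              apply hc
              rw [Nat.coprime_iff_gcd_eq_one, hg, h1, if_neg h]
      _ = φ (Nat.gcd q q' * w) + (W.card : ℝ) * (if Nat.gcd q q' ≠ 1 then φ (Nat.gcd q q') else 0) := by
          rw [Finset.sum_add_distrib, Finset.sum_ite_eq', if_pos hw, Finset.sum_const, nsmul_eq_mul]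
  calc ∑ q ∈ QQ, ∑ w ∈ W, ∑ q' ∈ QQ, ∑ w' ∈ W, (if ¬ Nat.Coprime (q * w) (q' * w') then
        φ (Nat.gcd (q * w) (q' * w')) else 0)
      ≤ ∑ q ∈ QQ, ∑ w ∈ W, ∑ q' ∈ QQ, (φ (Nat.gcd q q' * w) +
          (W.card : ℝ) * (if Nat.gcd q q' ≠ 1 then φ (Nat.gcd q q') else 0)) :=
        Finset.sum_le_sum fun q hq => Finset.sum_le_sum fun w hw => Finset.sum_le_sum fun q' hq' =>
          h1 q hq w hw q' hq'
    _ = _ := by
        simp only [Finset.sum_add_distrib]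
        congr 1
        · exact Finset.sum_comm
        · simp only [← Finset.mul_sum]
          rw [Finset.sum_congr rfl fun q _ => Finset.sum_const _]
          simp only [nsmul_eq_mul, ← Finset.mul_sum]
          ring

/-- pairs in one residue class -/
lemma cntLL {L a : ℝ} (LL : Finset ℕ) (hLL : ∀ l ∈ LL, L < l ∧ (l : ℝ) ≤ 2 * L) (hL : 1 ≤ L) (ha : 0 ≤ a)
    {m : ℕ} (hm : 0 < m) :
    ∑ l ∈ LL, ∑ l' ∈ LL, (if (m : ℤ) ∣ (l' : ℤ) - l then a else 0) ≤ 2 * L * (L / m + 1) * a := by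
  have hm0 : (0 : ℝ) < m := by exact_mod_cast hm
  calc ∑ l ∈ LL, ∑ l' ∈ LL, (if (m : ℤ) ∣ (l' : ℤ) - l then a else 0)
      ≤ ∑ l ∈ LL, (L / m + 1) * a := by
        refine Finset.sum_le_sum fun l _ => ?_
        rw [← Finset.sum_filter, Finset.sum_const, nsmul_eq_mul]
        exact mul_le_mul_of_nonneg_right (cnt LL hLL (by linarith) l hm) ha
    _ = (LL.card : ℝ) * ((L / m + 1) * a) := by rw [Finset.sum_const, nsmul_eq_mul]
    _ ≤ (2 * L) * ((L / m + 1) * a) :=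
        mul_le_mul_of_nonneg_right (card_le LL hLL hL) (by positivity)
    _ = 2 * L * (L / m + 1) * a := by ring

section

variable {p : PD}

lemma facts (h : p.Ok) : 1 ≤ p.L ∧ 1 ≤ p.R0 ∧
    (∀ q ∈ p.QQ, (p.Q < q ∧ (q : ℝ) ≤ 2 * p.Q) ∧ (q.divisors.card : ℝ) ≤ p.R0) ∧
    (∀ q ∈ p.QQ, ∀ d, d ∣ q → d ≠ 1 → p.D0 ≤ (d : ℝ)) := by
  have hQ1 := h.hQ1
  have hQ := h.hQ
  have hP := h.hP
  have hL := h.hL
  have hL1 : 2 ≤ p.L := by linarith
  have hprod : p.Q ≤ p.Q1 * p.Q * p.P := by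
    have h1 : 1 * p.Q ≤ p.Q1 * p.Q := mul_le_mul_of_nonneg_right hQ1 (by linarith)
    have h2 : (p.Q1 * p.Q) * 1 ≤ p.Q1 * p.Q * p.P := mul_le_mul_of_nonneg_left hP (by positivity)
    linarith
  have hbig : 2 * p.Q ≤ 16 * p.L * (p.Q1 * p.Q * p.P) := by
    have h1 : (32 : ℝ) * p.Q ≤ 16 * p.L * (p.Q1 * p.Q * p.P) :=
      mul_le_mul (by linarith) hprod (by linarith) (by linarith)
    linarith
  refine ⟨by linarith, ?_, ?_, ?_⟩
  · have h1 := h.hR0 1 le_rfl (by rw [Nat.cast_one]; linarith)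
    rwa [Nat.divisors_one, Finset.card_singleton, Nat.cast_one] at h1
  · intro q hq
    obtain ⟨-, h1, h2, -, -⟩ := h.hQQ q hq
    refine ⟨⟨h1, h2⟩, h.hR0 q ?_ (by linarith)⟩
    have h3 : (0 : ℝ) < q := by linarith
    exact_mod_cast h3
  · intro q hq d hd hd1
    obtain ⟨-, h1, -, -, h2⟩ := h.hQQ q hq
    obtain ⟨r, hr, hrd⟩ := Nat.exists_prime_and_dvd hd1
    have h3 := h2 r hr (hrd.trans hd)
    have hq0 : 0 < q := by
      have h3 : (0 : ℝ) < q := by linarith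
      exact_mod_cast h3
    have hd0 : 0 < d := Nat.pos_of_dvd_of_pos hd hq0
    have h4 : (r : ℝ) ≤ d := by exact_mod_cast Nat.le_of_dvd hd0 hrd
    linarith

lemma cop_k (h : p.Ok) {q w q1 : ℕ} (hq : q ∈ p.QQ) (hw : w ∈ p.W) (hq1 : Int.gcd p.k q1 = 1) :
    Int.gcd p.k (q1 * (q * w) : ℕ) = 1 := by
  by_contra hne
  obtain ⟨r, hr, hrd⟩ := Nat.exists_prime_and_dvd hne
  have h1 : (r : ℤ) ∣ p.k := (Int.natCast_dvd_natCast.2 hrd).trans (Int.gcd_dvd_left _ _)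
  have h2 : (r : ℤ) ∣ ((q1 * (q * w) : ℕ) : ℤ) := (Int.natCast_dvd_natCast.2 hrd).trans (Int.gcd_dvd_right _ _)
  have h3 : r ∣ q1 * (q * w) := Int.natCast_dvd_natCast.1 h2
  have h4 : (r : ℝ) ≤ |(p.k : ℝ)| := by
    have h5 : (r : ℤ) ≤ |p.k| := Int.le_of_dvd (abs_pos.2 h.hk0) ((dvd_abs _ _).2 h1)
    exact_mod_cast h5
  have h5 : |(p.k : ℝ)| < p.D0 := h.hkD
  rcases (Nat.Prime.dvd_mul hr).1 h3 with h6 | h6
  · have h7 : (r : ℤ) ∣ (Int.gcd p.k q1 : ℕ) := Int.dvd_coe_gcd h1 (Int.natCast_dvd_natCast.2 h6)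
    rw [hq1] at h7
    exact hr.one_lt.ne' (Nat.dvd_one.1 (Int.natCast_dvd_natCast.1 h7))
  · rcases (Nat.Prime.dvd_mul hr).1 h6 with h7 | h7
    · have h8 := (h.hQQ q hq).2.2.2.2 r hr h7
      linarith
    · obtain ⟨h8, h9, -⟩ := h.hW w hw
      have h10 : r = w := (Nat.prime_dvd_prime_iff_eq hr h8).1 h7
      have h11 := h.hDP
      rw [h10] at h4
      linarith

/-- the three sums over the pairs with a common factor -/
lemma sums (h : p.Ok) :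
    ∑ q ∈ p.QQ, ∑ w ∈ p.W, ∑ q' ∈ p.QQ, ∑ w' ∈ p.W, (if ¬ Nat.Coprime (q * w) (q' * w') then
        ((Nat.gcd (q * w) (q' * w') : ℕ) : ℝ) else 0) ≤ 48 * p.R0 * (p.Q * p.P) ^ 2 ∧
    ∑ q ∈ p.QQ, ∑ w ∈ p.W, ∑ q' ∈ p.QQ, ∑ w' ∈ p.W, (if ¬ Nat.Coprime (q * w) (q' * w') then
        (1 : ℝ) else 0) ≤ 32 * p.R0 * (p.Q * p.P) ^ 2 / p.D0 ∧
    ∑ q ∈ p.QQ, ∑ w ∈ p.W, ∑ q' ∈ p.QQ, ∑ w' ∈ p.W, (if ¬ Nat.Coprime (q * w) (q' * w') then
        1 / ((Nat.gcd (q * w) (q' * w') : ℕ) : ℝ) else 0) ≤ 32 * p.R0 * (p.Q * p.P) ^ 2 / p.D0 ^ 2 := by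
  obtain ⟨hL, hR0, hQQ, hD⟩ := facts h
  have hQ := h.hQ
  have hP := h.hP
  have hD0 := h.hD0
  have hDP := h.hDP
  have hQ0 : 0 < p.Q := by linarith
  have hP0 : 0 < p.P := by linarith
  have hD00 : 0 < p.D0 := by linarith
  have hR00 : 0 ≤ p.R0 := by linarith
  have hWp : ∀ w ∈ p.W, w.Prime := fun w hw => (h.hW w hw).1
  have hWc : (p.W.card : ℝ) ≤ 2 * p.P := card_le p.W (fun w hw => (h.hW w hw).2) hP
  have hQc : (p.QQ.card : ℝ) ≤ 2 * p.Q := card_le p.QQ (fun q hq => (hQQ q hq).1) hQ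
  have hW2 : (p.W.card : ℝ) ^ 2 ≤ 4 * p.P ^ 2 := by
    calc (p.W.card : ℝ) ^ 2 ≤ (2 * p.P) ^ 2 := pow_le_pow_left₀ (Nat.cast_nonneg _) hWc 2
      _ = 4 * p.P ^ 2 := by ring
  have hQ2 : (p.QQ.card : ℝ) ^ 2 ≤ 4 * p.Q ^ 2 := by
    calc (p.QQ.card : ℝ) ^ 2 ≤ (2 * p.Q) ^ 2 := pow_le_pow_left₀ (Nat.cast_nonneg _) hQc 2
      _ = 4 * p.Q ^ 2 := by ring
  have hgpos : ∀ q ∈ p.QQ, ∀ q', 0 < Nat.gcd q q' := by
    intro q hq q'
    have h3 : (0 : ℝ) < q := by linarith [(hQQ q hq).1.1]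
    exact Nat.gcd_pos_of_pos_left _ (by exact_mod_cast h3)
  refine ⟨?_, ?_, ?_⟩
  · refine (pairW hWp h.hWQ (fun n => (n : ℝ)) (fun n => Nat.cast_nonneg n)).trans ?_
    have h1 := pairQ (B := 1) hQ p.QQ hQQ hR00 zero_le_one (fun _ => True) (fun n => (n : ℝ))
      (fun q _ d _ _ => by rw [one_mul])
    have h2 := pairQ (B := 1) hQ p.QQ hQQ hR00 zero_le_one (fun n => n ≠ 1) (fun n => (n : ℝ))
      (fun q _ d _ _ => by rw [one_mul])
    simp only [if_true] at h1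
    have h3 : ∑ w ∈ p.W, ∑ q ∈ p.QQ, ∑ q' ∈ p.QQ, ((Nat.gcd q q' * w : ℕ) : ℝ) ≤
        4 * p.P ^ 2 * (6 * p.R0 * p.Q ^ 2 * 1) := by
      calc ∑ w ∈ p.W, ∑ q ∈ p.QQ, ∑ q' ∈ p.QQ, ((Nat.gcd q q' * w : ℕ) : ℝ)
          ≤ ∑ w ∈ p.W, ∑ q ∈ p.QQ, ∑ q' ∈ p.QQ, ((Nat.gcd q q' : ℕ) : ℝ) * (2 * p.P) := by
            refine Finset.sum_le_sum fun w hw => Finset.sum_le_sum fun q _ =>
              Finset.sum_le_sum fun q' _ => ?_
            rw [Nat.cast_mul]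
            exact mul_le_mul_of_nonneg_left (h.hW w hw).2.2 (Nat.cast_nonneg _)
        _ = (p.W.card : ℝ) * ((∑ q ∈ p.QQ, ∑ q' ∈ p.QQ, ((Nat.gcd q q' : ℕ) : ℝ)) * (2 * p.P)) := by
            simp only [← Finset.sum_mul]
            rw [Finset.sum_const, nsmul_eq_mul]
            ring
        _ ≤ (2 * p.P) * ((6 * p.R0 * p.Q ^ 2 * 1) * (2 * p.P)) := by
            refine mul_le_mul hWc (mul_le_mul_of_nonneg_right h1 (by positivity)) ?_ (by positivity)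
            exact mul_nonneg (Finset.sum_nonneg fun _ _ => Finset.sum_nonneg fun _ _ => Nat.cast_nonneg _)
              (by positivity)
        _ = _ := by ring
    have h4 : (p.W.card : ℝ) ^ 2 * ∑ q ∈ p.QQ, ∑ q' ∈ p.QQ,
          (if Nat.gcd q q' ≠ 1 then ((Nat.gcd q q' : ℕ) : ℝ) else 0) ≤
        4 * p.P ^ 2 * (6 * p.R0 * p.Q ^ 2 * 1) := by
      refine mul_le_mul hW2 h2 ?_ (by positivity)
      refine Finset.sum_nonneg fun _ _ => Finset.sum_nonneg fun _ _ => ?_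
      split_ifs
      · exact Nat.cast_nonneg _
      · exact le_rfl
    calc _ ≤ 4 * p.P ^ 2 * (6 * p.R0 * p.Q ^ 2 * 1) + 4 * p.P ^ 2 * (6 * p.R0 * p.Q ^ 2 * 1) :=
          add_le_add h3 h4
      _ = 48 * p.R0 * (p.Q * p.P) ^ 2 := by ring
  · refine (pairW hWp h.hWQ (fun _ => (1 : ℝ)) (fun n => zero_le_one)).trans ?_
    have h2 := pairQ (B := 1 / p.D0) hQ p.QQ hQQ hR00 (by positivity) (fun n => n ≠ 1) (fun _ => (1 : ℝ))
      (fun q hq d hd hd1 => by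
        have := hD q hq d hd hd1
        rw [div_mul_eq_mul_div, one_mul, le_div_iff₀ hD00, one_mul]
        exact this)
    have h3 : ∑ w ∈ p.W, ∑ q ∈ p.QQ, ∑ q' ∈ p.QQ, (1 : ℝ) ≤ 8 * p.R0 * (p.Q * p.P) ^ 2 / p.D0 := by
      have h5 : ∑ w ∈ p.W, ∑ q ∈ p.QQ, ∑ q' ∈ p.QQ, (1 : ℝ) = p.W.card * (p.QQ.card : ℝ) ^ 2 := by
        simp only [Finset.sum_const, nsmul_eq_mul, mul_one]
        ring
      rw [h5]
      calc (p.W.card : ℝ) * (p.QQ.card : ℝ) ^ 2 ≤ (2 * p.P) * (4 * p.Q ^ 2) :=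
            mul_le_mul hWc hQ2 (by positivity) (by positivity)
        _ = 8 * 1 * (p.Q ^ 2 * p.P) := by ring
        _ ≤ 8 * p.R0 * (p.Q ^ 2 * p.P * (p.P / p.D0)) := by
            refine mul_le_mul (by linarith) ?_ (by positivity) (by positivity)
            refine le_mul_of_one_le_right (by positivity) ?_
            rw [le_div_iff₀ hD00]
            linarith
        _ = 8 * p.R0 * (p.Q * p.P) ^ 2 / p.D0 := by ring
    have h4 : (p.W.card : ℝ) ^ 2 * ∑ q ∈ p.QQ, ∑ q' ∈ p.QQ,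
          (if Nat.gcd q q' ≠ 1 then (1 : ℝ) else 0) ≤
        4 * p.P ^ 2 * (6 * p.R0 * p.Q ^ 2 * (1 / p.D0)) := by
      refine mul_le_mul hW2 h2 ?_ (by positivity)
      refine Finset.sum_nonneg fun _ _ => Finset.sum_nonneg fun _ _ => ?_
      split_ifs
      · exact zero_le_one
      · exact le_rfl
    calc _ ≤ 8 * p.R0 * (p.Q * p.P) ^ 2 / p.D0 + 4 * p.P ^ 2 * (6 * p.R0 * p.Q ^ 2 * (1 / p.D0)) :=
          add_le_add h3 h4
      _ = 32 * p.R0 * (p.Q * p.P) ^ 2 / p.D0 := by ring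
  · refine (pairW hWp h.hWQ (fun n => 1 / (n : ℝ)) (fun n => by positivity)).trans ?_
    have h2 := pairQ (B := 1 / p.D0 ^ 2) hQ p.QQ hQQ hR00 (by positivity) (fun n => n ≠ 1)
      (fun n => 1 / (n : ℝ))
      (fun q hq d hd hd1 => by
        have h6 := hD q hq d hd hd1
        have hd0 : (0 : ℝ) < d := by linarith
        rw [div_mul_eq_mul_div, one_mul, div_le_div_iff₀ hd0 (by positivity), one_mul, ← sq]
        exact pow_le_pow_left₀ hD00.le h6 2)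
    have h3 : ∑ w ∈ p.W, ∑ q ∈ p.QQ, ∑ q' ∈ p.QQ, 1 / ((Nat.gcd q q' * w : ℕ) : ℝ) ≤
        8 * p.R0 * (p.Q * p.P) ^ 2 / p.D0 ^ 2 := by
      calc ∑ w ∈ p.W, ∑ q ∈ p.QQ, ∑ q' ∈ p.QQ, 1 / ((Nat.gcd q q' * w : ℕ) : ℝ)
          ≤ ∑ w ∈ p.W, ∑ q ∈ p.QQ, ∑ q' ∈ p.QQ, 1 / p.P := by
            refine Finset.sum_le_sum fun w hw => Finset.sum_le_sum fun q hq =>
              Finset.sum_le_sum fun q' _ => ?_
            refine one_div_le_one_div_of_le hP0 ?_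
            rw [Nat.cast_mul]
            have h6 : (1 : ℝ) ≤ (Nat.gcd q q' : ℕ) := by exact_mod_cast hgpos q hq q'
            have h7 := (h.hW w hw).2.1
            calc p.P ≤ 1 * (w : ℝ) := by linarith
              _ ≤ (Nat.gcd q q' : ℕ) * (w : ℝ) := mul_le_mul_of_nonneg_right h6 (Nat.cast_nonneg _)
        _ = (p.W.card : ℝ) * (p.QQ.card : ℝ) ^ 2 * (1 / p.P) := by
            simp only [Finset.sum_const, nsmul_eq_mul]
            ring
        _ ≤ (2 * p.P) * (4 * p.Q ^ 2) * (1 / p.P) :=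
            mul_le_mul_of_nonneg_right (mul_le_mul hWc hQ2 (by positivity) (by positivity))
              (by positivity)
        _ = 8 * 1 * p.Q ^ 2 := by field_simp; ring
        _ ≤ 8 * p.R0 * (p.Q ^ 2 * (p.P / p.D0) ^ 2) := by
            refine mul_le_mul (by linarith) ?_ (by positivity) (by positivity)
            refine le_mul_of_one_le_right (by positivity) (one_le_pow₀ ?_)
            rw [le_div_iff₀ hD00]
            linarith
        _ = 8 * p.R0 * (p.Q * p.P) ^ 2 / p.D0 ^ 2 := by ring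
    have h4 : (p.W.card : ℝ) ^ 2 * ∑ q ∈ p.QQ, ∑ q' ∈ p.QQ,
          (if Nat.gcd q q' ≠ 1 then 1 / ((Nat.gcd q q' : ℕ) : ℝ) else 0) ≤
        4 * p.P ^ 2 * (6 * p.R0 * p.Q ^ 2 * (1 / p.D0 ^ 2)) := by
      refine mul_le_mul hW2 h2 ?_ (by positivity)
      refine Finset.sum_nonneg fun _ _ => Finset.sum_nonneg fun _ _ => ?_
      split_ifs
      · positivity
      · exact le_rfl
    calc _ ≤ 8 * p.R0 * (p.Q * p.P) ^ 2 / p.D0 ^ 2 + 4 * p.P ^ 2 * (6 * p.R0 * p.Q ^ 2 * (1 / p.D0 ^ 2)) :=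
          add_le_add h3 h4
      _ = 32 * p.R0 * (p.Q * p.P) ^ 2 / p.D0 ^ 2 := by ring

/-- **P2** -/
theorem p2 (hB : Stmt_brB) (h : p.Ok) : p.Tb ≤ 2500 * p.R0 * (p.M * p.L + p.M * p.L ^ 2 / (p.Q1 * p.D0) +
    p.Q1 * (p.Q * p.P) ^ 2 * p.L / p.D0 + (p.Q * p.P) ^ 2 * p.L ^ 2 / p.D0 ^ 2) := by
  obtain ⟨hL, hR0, hQQ, hD⟩ := facts h
  obtain ⟨s1, s2, s3⟩ := sums h
  have hQ1 := h.hQ1
  have hQ := h.hQ
  have hP := h.hP
  have hM := h.hM
  have hD0 := h.hD0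
  have hRM := h.hRM
  have hQ0 : 0 < p.Q := by linarith
  have hP0 : 0 < p.P := by linarith
  have hQ10 : 0 < p.Q1 := by linarith
  have hM0 : 0 < p.M := by linarith
  have hD00 : 0 < p.D0 := by linarith
  have hL0 : 0 < p.L := by linarith
  have hR00 : 0 < p.R0 := by linarith
  obtain ⟨c0, hc0⟩ : ∃ c0 : ℝ, c0 = 4 * p.M / (p.Q1 * (p.Q * p.P) ^ 2) := ⟨_, rfl⟩
  have hc00 : 0 ≤ c0 := by rw [hc0]; positivity
  obtain ⟨bnd, hbnd⟩ : ∃ bnd : ℕ → ℕ → ℕ → ℕ → ℝ, ∀ q1 g l l', bnd q1 g l l' =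
      (if ((q1 * g : ℕ) : ℤ) ∣ (l' : ℤ) - l then c0 * g + 1 else 0) +
        (if (q1 : ℤ) ∣ (l' : ℤ) - l then 3 * c0 else 0) := ⟨_, fun _ _ _ _ => rfl⟩
  have hbnd0 : ∀ q1 g l l', 0 ≤ bnd q1 g l l' := by
    intro q1 g l l'
    rw [hbnd]
    refine add_nonneg ?_ ?_
    · split_ifs
      · positivity
      · exact le_rfl
    · split_ifs
      · positivity
      · exact le_rfl
  obtain ⟨HH, hHH⟩ : ∃ HH : ℕ → ℝ, ∀ g, HH g = 2 * p.L * c0 * g +
      (8 * p.L ^ 2 * c0 / p.Q1 + 2 * p.L + 6 * c0 * p.L) * 1 + 2 * p.L ^ 2 / p.Q1 * (1 / (g : ℝ)) :=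
    ⟨_, fun _ => rfl⟩
  -- the sum over one `q1`
  have hq1mem : ∀ q1 ∈ p.Q1s, (p.Q1 < q1 ∧ (q1 : ℝ) ≤ 2 * p.Q1) ∧ Int.gcd p.k q1 = 1 := by
    intro q1 hq1
    obtain ⟨h1, h2⟩ := Finset.mem_filter.1 hq1
    obtain ⟨h3, h4⟩ := Finset.mem_Ioc.1 h1
    exact ⟨⟨Nat.lt_of_floor_lt h3, (Nat.le_floor_iff (by positivity)).1 h4⟩, h2⟩
  have hone : ∀ q1 ∈ p.Q1s, ∑ ii ∈ (p.I ×ˢ p.I).filter
      (fun ii => ¬ Nat.Coprime (ii.1.1 * ii.1.2.1) (ii.2.1 * ii.2.2.1)), |p.br q1 ii.1 ii.2| ≤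
      ∑ q ∈ p.QQ, ∑ w ∈ p.W, ∑ q' ∈ p.QQ, ∑ w' ∈ p.W, (if ¬ Nat.Coprime (q * w) (q' * w') then
        HH (Nat.gcd (q * w) (q' * w')) else 0) := by
    intro q1 hq1
    obtain ⟨⟨h1, h2⟩, h3⟩ := hq1mem q1 hq1
    have hq10 : (0 : ℝ) < q1 := by linarith
    have hq1pos : 0 < q1 := by exact_mod_cast hq10
    have hpt : ∀ i ∈ p.I, ∀ i' ∈ p.I, |p.br q1 i i'| ≤
        bnd q1 (Nat.gcd (i.1 * i.2.1) (i'.1 * i'.2.1)) i.2.2 i'.2.2 := by
      intro i hi i' hi'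
      have hi1 := (Finset.mem_filter.1 hi).1
      have hi1' := (Finset.mem_filter.1 hi').1
      obtain ⟨hqi, hwl⟩ := Finset.mem_product.1 hi1
      obtain ⟨hwi, hli⟩ := Finset.mem_product.1 hwl
      obtain ⟨hqi', hwl'⟩ := Finset.mem_product.1 hi1'
      obtain ⟨hwi', hli'⟩ := Finset.mem_product.1 hwl'
      have e1 := (hQQ _ hqi).1
      have e1' := (hQQ _ hqi').1
      have e2 := (h.hW _ hwi).2
      have e2' := (h.hW _ hwi').2
      have hl0 : 0 < i.2.2 := (h.hLL _ hli).1.pos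
      have hl0' : 0 < i'.2.2 := (h.hLL _ hli').1.pos
      have hq20 : 0 < i.1 * i.2.1 := by
        refine Nat.mul_pos ?_ (h.hW _ hwi).1.pos
        have : (0 : ℝ) < (i.1 : ℝ) := by linarith
        exact_mod_cast this
      have hq20' : 0 < i'.1 * i'.2.1 := by
        refine Nat.mul_pos ?_ (h.hW _ hwi').1.pos
        have : (0 : ℝ) < (i'.1 : ℝ) := by linarith
        exact_mod_cast this
      have hbig : p.Q * p.P ≤ ((i.1 * i.2.1 : ℕ) : ℝ) := by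
        rw [Nat.cast_mul]
        exact mul_le_mul e1.1.le e2.1.le hP0.le (by linarith)
      have hbig' : p.Q * p.P ≤ ((i'.1 * i'.2.1 : ℕ) : ℝ) := by
        rw [Nat.cast_mul]
        exact mul_le_mul e1'.1.le e2'.1.le hP0.le (by linarith)
      have hsm : ((i.1 * i.2.1 : ℕ) : ℝ) ≤ 4 * p.M / p.Q1 := by
        rw [Nat.cast_mul, le_div_iff₀ hQ10]
        have h4 : (i.1 : ℝ) * (i.2.1 : ℝ) ≤ (2 * p.Q) * (2 * p.P) :=
          mul_le_mul e1.2 e2.2 (by linarith) (by linarith)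
        calc (i.1 : ℝ) * (i.2.1 : ℝ) * p.Q1 ≤ (2 * p.Q) * (2 * p.P) * p.Q1 :=
              mul_le_mul_of_nonneg_right h4 hQ10.le
          _ = 4 * (p.Q1 * p.Q * p.P) := by ring
          _ ≤ 4 * p.M := by linarith
      have hsm' : ((i'.1 * i'.2.1 : ℕ) : ℝ) ≤ 4 * p.M / p.Q1 := by
        rw [Nat.cast_mul, le_div_iff₀ hQ10]
        have h4 : (i'.1 : ℝ) * (i'.2.1 : ℝ) ≤ (2 * p.Q) * (2 * p.P) :=
          mul_le_mul e1'.2 e2'.2 (by linarith) (by linarith)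
        calc (i'.1 : ℝ) * (i'.2.1 : ℝ) * p.Q1 ≤ (2 * p.Q) * (2 * p.P) * p.Q1 :=
              mul_le_mul_of_nonneg_right h4 hQ10.le
          _ = 4 * (p.Q1 * p.Q * p.P) := by ring
          _ ≤ 4 * p.M := by linarith
      have hYq : ∀ n : ℕ, (n : ℝ) ≤ 4 * p.M / p.Q1 → ((q1 * n : ℕ) : ℝ) ≤ 4 * p.M * q1 / p.Q1 := by
        intro n hn
        rw [Nat.cast_mul]
        calc (q1 : ℝ) * n ≤ q1 * (4 * p.M / p.Q1) := mul_le_mul_of_nonneg_left hn hq10.le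
          _ = 4 * p.M * q1 / p.Q1 := by ring
      have hb := hB (4 * p.M * q1 / p.Q1) (by positivity) p.k q1 (i.1 * i.2.1) i.2.2 (i'.1 * i'.2.1)
        i'.2.2 hq1pos hq20 hq20' hl0 hl0' (cop_k h hqi hwi h3) (cop_k h hqi' hwi' h3)
        (hYq _ hsm) (hYq _ hsm')
      have hq2r : (0 : ℝ) < ((i.1 * i.2.1 : ℕ) : ℝ) := by exact_mod_cast hq20
      have hq2r' : (0 : ℝ) < ((i'.1 * i'.2.1 : ℕ) : ℝ) := by exact_mod_cast hq20'
      have hc : (4 * p.M * q1 / p.Q1) / ((q1 : ℝ) * ((i.1 * i.2.1 : ℕ) : ℝ) * ((i'.1 * i'.2.1 : ℕ) : ℝ)) ≤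
          c0 := by
        have e3 : (4 * p.M * q1 / p.Q1) / ((q1 : ℝ) * ((i.1 * i.2.1 : ℕ) : ℝ) * ((i'.1 * i'.2.1 : ℕ) : ℝ)) =
            4 * p.M / (p.Q1 * (((i.1 * i.2.1 : ℕ) : ℝ) * ((i'.1 * i'.2.1 : ℕ) : ℝ))) := by
          field_simp
        rw [e3, hc0]
        refine div_le_div_of_nonneg_left (by positivity) (by positivity) ?_
        refine mul_le_mul_of_nonneg_left ?_ hQ10.le
        rw [sq]
        exact mul_le_mul hbig hbig' (by positivity) hq2r.le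
      refine hb.trans ?_
      rw [hbnd]
      refine add_le_add ?_ ?_
      · split_ifs with hdv
        · have e4 : (4 * p.M * q1 / p.Q1) * ((Nat.gcd (i.1 * i.2.1) (i'.1 * i'.2.1) : ℕ) : ℝ) /
              ((q1 : ℝ) * ((i.1 * i.2.1 : ℕ) : ℝ) * ((i'.1 * i'.2.1 : ℕ) : ℝ)) =
              (4 * p.M * q1 / p.Q1) / ((q1 : ℝ) * ((i.1 * i.2.1 : ℕ) : ℝ) * ((i'.1 * i'.2.1 : ℕ) : ℝ)) *
                ((Nat.gcd (i.1 * i.2.1) (i'.1 * i'.2.1) : ℕ) : ℝ) := by ring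
          rw [e4]
          have := mul_le_mul_of_nonneg_right hc
            (Nat.cast_nonneg (α := ℝ) (Nat.gcd (i.1 * i.2.1) (i'.1 * i'.2.1)))
          linarith
        · exact le_rfl
      · split_ifs with hdv
        · linarith
        · exact le_rfl
    have hI : p.I ⊆ p.QQ ×ˢ p.W ×ˢ p.LL := Finset.filter_subset _ _
    calc ∑ ii ∈ (p.I ×ˢ p.I).filter
          (fun ii => ¬ Nat.Coprime (ii.1.1 * ii.1.2.1) (ii.2.1 * ii.2.2.1)), |p.br q1 ii.1 ii.2|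
        ≤ ∑ ii ∈ (p.I ×ˢ p.I).filter
          (fun ii => ¬ Nat.Coprime (ii.1.1 * ii.1.2.1) (ii.2.1 * ii.2.2.1)),
            bnd q1 (Nat.gcd (ii.1.1 * ii.1.2.1) (ii.2.1 * ii.2.2.1)) ii.1.2.2 ii.2.2.2 := by
          refine Finset.sum_le_sum fun ii hii => ?_
          obtain ⟨h4, h5⟩ := Finset.mem_product.1 (Finset.mem_filter.1 hii).1
          exact hpt _ h4 _ h5
      _ = ∑ ii ∈ p.I ×ˢ p.I, (if ¬ Nat.Coprime (ii.1.1 * ii.1.2.1) (ii.2.1 * ii.2.2.1) then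
            bnd q1 (Nat.gcd (ii.1.1 * ii.1.2.1) (ii.2.1 * ii.2.2.1)) ii.1.2.2 ii.2.2.2 else 0) :=
          Finset.sum_filter _ _
      _ ≤ ∑ ii ∈ (p.QQ ×ˢ p.W ×ˢ p.LL) ×ˢ (p.QQ ×ˢ p.W ×ˢ p.LL),
          (if ¬ Nat.Coprime (ii.1.1 * ii.1.2.1) (ii.2.1 * ii.2.2.1) then
            bnd q1 (Nat.gcd (ii.1.1 * ii.1.2.1) (ii.2.1 * ii.2.2.1)) ii.1.2.2 ii.2.2.2 else 0) := by
          refine Finset.sum_le_sum_of_subset_of_nonneg (Finset.product_subset_product hI hI)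
            fun ii _ _ => ?_
          split_ifs
          · exact le_rfl
          · exact hbnd0 _ _ _ _
      _ = ∑ q ∈ p.QQ, ∑ w ∈ p.W, ∑ l ∈ p.LL, ∑ q' ∈ p.QQ, ∑ w' ∈ p.W, ∑ l' ∈ p.LL,
          (if ¬ Nat.Coprime (q * w) (q' * w') then bnd q1 (Nat.gcd (q * w) (q' * w')) l l' else 0) := by
          simp only [Finset.sum_product]
      _ = ∑ q ∈ p.QQ, ∑ w ∈ p.W, ∑ q' ∈ p.QQ, ∑ w' ∈ p.W, ∑ l ∈ p.LL, ∑ l' ∈ p.LL,
          (if ¬ Nat.Coprime (q * w) (q' * w') then bnd q1 (Nat.gcd (q * w) (q' * w')) l l' else 0) := by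
          refine Finset.sum_congr rfl fun q _ => Finset.sum_congr rfl fun w _ => ?_
          rw [Finset.sum_comm]
          refine Finset.sum_congr rfl fun q' _ => ?_
          rw [Finset.sum_comm]
      _ ≤ ∑ q ∈ p.QQ, ∑ w ∈ p.W, ∑ q' ∈ p.QQ, ∑ w' ∈ p.W, (if ¬ Nat.Coprime (q * w) (q' * w') then
          HH (Nat.gcd (q * w) (q' * w')) else 0) := by
          refine Finset.sum_le_sum fun q hq => Finset.sum_le_sum fun w hw =>
            Finset.sum_le_sum fun q' hq' => Finset.sum_le_sum fun w' hw' => ?_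
          by_cases hc : Nat.Coprime (q * w) (q' * w')
          · simp [hc]
          · simp only [if_pos hc]
            obtain ⟨g, hg⟩ : ∃ g, g = Nat.gcd (q * w) (q' * w') := ⟨_, rfl⟩
            rw [← hg]
            have hqpos : 0 < q := by
              have : (0 : ℝ) < q := by linarith [(hQQ q hq).1.1]
              exact_mod_cast this
            have hgpos : 0 < g := by
              rw [hg]
              exact Nat.gcd_pos_of_pos_left _ (Nat.mul_pos hqpos (h.hW w hw).1.pos)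
            have hg0 : (0 : ℝ) < g := by exact_mod_cast hgpos
            have c1 := cntLL (a := c0 * g + 1) p.LL (fun l hl => (h.hLL l hl).2) hL (by positivity)
              (Nat.mul_pos hq1pos hgpos)
            have c2 := cntLL (a := 3 * c0) p.LL (fun l hl => (h.hLL l hl).2) hL (by positivity) hq1pos
            simp only [hbnd, Finset.sum_add_distrib]
            refine (add_le_add c1 c2).trans ?_
            rw [hHH, Nat.cast_mul]
            have d1 : p.L / ((q1 : ℝ) * g) ≤ p.L / (p.Q1 * g) :=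
              div_le_div_of_nonneg_left hL0.le (by positivity)
                (mul_le_mul_of_nonneg_right h1.le hg0.le)
            have d2 : p.L / (q1 : ℝ) ≤ p.L / p.Q1 :=
              div_le_div_of_nonneg_left hL0.le hQ10 h1.le
            calc 2 * p.L * (p.L / ((q1 : ℝ) * g) + 1) * (c0 * g + 1) +
                  2 * p.L * (p.L / (q1 : ℝ) + 1) * (3 * c0)
                ≤ 2 * p.L * (p.L / (p.Q1 * g) + 1) * (c0 * g + 1) +
                  2 * p.L * (p.L / p.Q1 + 1) * (3 * c0) := by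
                  refine add_le_add ?_ ?_
                  · refine mul_le_mul_of_nonneg_right (mul_le_mul_of_nonneg_left ?_ (by positivity))
                      (by positivity)
                    linarith
                  · refine mul_le_mul_of_nonneg_right (mul_le_mul_of_nonneg_left ?_ (by positivity))
                      (by positivity)
                    linarith
              _ = 2 * p.L * c0 * g + (8 * p.L ^ 2 * c0 / p.Q1 + 2 * p.L + 6 * c0 * p.L) * 1 +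
                    2 * p.L ^ 2 / p.Q1 * (1 / (g : ℝ)) := by
                  field_simp
                  ring
  -- all the sums
  have hHsum : ∑ q ∈ p.QQ, ∑ w ∈ p.W, ∑ q' ∈ p.QQ, ∑ w' ∈ p.W,
      (if ¬ Nat.Coprime (q * w) (q' * w') then HH (Nat.gcd (q * w) (q' * w')) else 0) ≤
      2 * p.L * c0 * (48 * p.R0 * (p.Q * p.P) ^ 2) +
        (8 * p.L ^ 2 * c0 / p.Q1 + 2 * p.L + 6 * c0 * p.L) * (32 * p.R0 * (p.Q * p.P) ^ 2 / p.D0) +
        2 * p.L ^ 2 / p.Q1 * (32 * p.R0 * (p.Q * p.P) ^ 2 / p.D0 ^ 2) := by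
    have e1 : ∀ q w q' w' : ℕ,
        (if ¬ Nat.Coprime (q * w) (q' * w') then HH (Nat.gcd (q * w) (q' * w')) else 0) =
        2 * p.L * c0 * (if ¬ Nat.Coprime (q * w) (q' * w') then
          ((Nat.gcd (q * w) (q' * w') : ℕ) : ℝ) else 0) +
        (8 * p.L ^ 2 * c0 / p.Q1 + 2 * p.L + 6 * c0 * p.L) *
          (if ¬ Nat.Coprime (q * w) (q' * w') then (1 : ℝ) else 0) +
        2 * p.L ^ 2 / p.Q1 * (if ¬ Nat.Coprime (q * w) (q' * w') then
          1 / ((Nat.gcd (q * w) (q' * w') : ℕ) : ℝ) else 0) := by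
      intro q w q' w'
      by_cases hc : Nat.Coprime (q * w) (q' * w')
      · simp only [if_neg (not_not.2 hc), mul_zero, add_zero]
      · simp only [if_pos hc, hHH]
    simp only [e1, Finset.sum_add_distrib, ← Finset.mul_sum]
    refine add_le_add (add_le_add (mul_le_mul_of_nonneg_left s1 (by positivity))
      (mul_le_mul_of_nonneg_left s2 (by positivity))) (mul_le_mul_of_nonneg_left s3 (by positivity))
  have hTb : p.Tb ≤ 2 * p.Q1 * (2 * p.L * c0 * (48 * p.R0 * (p.Q * p.P) ^ 2) +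
        (8 * p.L ^ 2 * c0 / p.Q1 + 2 * p.L + 6 * c0 * p.L) * (32 * p.R0 * (p.Q * p.P) ^ 2 / p.D0) +
        2 * p.L ^ 2 / p.Q1 * (32 * p.R0 * (p.Q * p.P) ^ 2 / p.D0 ^ 2)) := by
    unfold PD.Tb
    calc _ ≤ ∑ q1 ∈ p.Q1s, (2 * p.L * c0 * (48 * p.R0 * (p.Q * p.P) ^ 2) +
        (8 * p.L ^ 2 * c0 / p.Q1 + 2 * p.L + 6 * c0 * p.L) * (32 * p.R0 * (p.Q * p.P) ^ 2 / p.D0) +
        2 * p.L ^ 2 / p.Q1 * (32 * p.R0 * (p.Q * p.P) ^ 2 / p.D0 ^ 2)) :=
          Finset.sum_le_sum fun q1 hq1 => (hone q1 hq1).trans hHsum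
      _ = (p.Q1s.card : ℝ) * (2 * p.L * c0 * (48 * p.R0 * (p.Q * p.P) ^ 2) +
        (8 * p.L ^ 2 * c0 / p.Q1 + 2 * p.L + 6 * c0 * p.L) * (32 * p.R0 * (p.Q * p.P) ^ 2 / p.D0) +
        2 * p.L ^ 2 / p.Q1 * (32 * p.R0 * (p.Q * p.P) ^ 2 / p.D0 ^ 2)) := by
          rw [Finset.sum_const, nsmul_eq_mul]
      _ ≤ _ := mul_le_mul_of_nonneg_right
          (card_le p.Q1s (fun q1 hq1 => (hq1mem q1 hq1).1) hQ1) (by positivity)
  refine hTb.trans ?_
  have e2 : 2 * p.Q1 * (2 * p.L * c0 * (48 * p.R0 * (p.Q * p.P) ^ 2) +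
        (8 * p.L ^ 2 * c0 / p.Q1 + 2 * p.L + 6 * c0 * p.L) * (32 * p.R0 * (p.Q * p.P) ^ 2 / p.D0) +
        2 * p.L ^ 2 / p.Q1 * (32 * p.R0 * (p.Q * p.P) ^ 2 / p.D0 ^ 2)) =
      768 * p.R0 * (p.M * p.L) + 1536 * p.R0 * (p.M * p.L) / p.D0 +
        2048 * p.R0 * (p.M * p.L ^ 2 / (p.Q1 * p.D0)) +
        128 * p.R0 * (p.Q1 * (p.Q * p.P) ^ 2 * p.L / p.D0) +
        128 * p.R0 * ((p.Q * p.P) ^ 2 * p.L ^ 2 / p.D0 ^ 2) := by
    rw [hc0]
    field_simp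
    ring
  rw [e2]
  have e3 : 1536 * p.R0 * (p.M * p.L) / p.D0 ≤ 1536 * p.R0 * (p.M * p.L) :=
    div_le_self (by positivity) hD0
  have e4 : 0 ≤ p.R0 * (p.M * p.L) := by positivity
  have e5 : 0 ≤ p.R0 * (p.M * p.L ^ 2 / (p.Q1 * p.D0)) := by positivity
  have e6 : 0 ≤ p.R0 * (p.Q1 * (p.Q * p.P) ^ 2 * p.L / p.D0) := by positivity
  have e7 : 0 ≤ p.R0 * ((p.Q * p.P) ^ 2 * p.L ^ 2 / p.D0 ^ 2) := by positivity
  nlinarith

end

end Pool.Agent.Helper90.AP
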